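import Mathlib
import Pool.Agent.Lib.helper9.Derand

set_option autoImplicit false

namespace Pool.Agent.H.MP_df8e9b_al

open Filter Topology Finset Real
open scoped Pointwise ENNReal symmDiff Classical

variable {G A : Type} [Group G] [AddCommGroup A] [DistribMulAction G A]

/-- the trajectory -/
noncomputable def T (F : Finset G) (X : Finset A) : Finset A := ∑ g ∈ F, g • X

/-- size of the right boundary -/
noncomputable def bd (F : Finset G) (g : G) : ℝ := (F.image (· * g) ∆ F).card

/-- the filter of right Folner sets -/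
noncomputable def Fol (G : Type) [Group G] : Filter (Finset G) :=
  𝓟 {F | F.Nonempty} ⊓ ⨅ g : G, comap (fun F => bd F g / F.card) (𝓝 0)

/-- entropy with respect to a finite set -/
noncomputable def Hx (G : Type) [Group G] [DistribMulAction G A] (X : Finset A) : ℝ≥0∞ :=
  limsup (fun F : Finset G => .ofReal (log (T F X).card / F.card)) (Fol G)

/-- algebraic entropy -/
noncomputable def hAlg (G A : Type) [Group G] [AddCommGroup A] [DistribMulAction G A] : ℝ≥0∞ :=
  ⨆ (X : Finset A) (_ : X.Nonempty), Hx G X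

/-- algebraic entropy over finite subgroups -/
noncomputable def ent (G A : Type) [Group G] [AddCommGroup A] [DistribMulAction G A] : ℝ≥0∞ :=
  ⨆ (X : Finset A) (_ : ∃ B : AddSubgroup A, (B : Set A) = X), Hx G X

theorem T0 {X : Finset A} (h : 0 ∈ X) (F : Finset G) : 0 ∈ T F X := by
  induction F using Finset.induction_on with
  | empty => simp [T]
  | insert g F hg i =>
    rw [T, sum_insert hg]
    simpa [T] using add_mem_add (smul_mem_smul_finset (a := g) h) i

theorem Tun {X : Finset A} (h : 0 ∈ X) {F E D : Finset G} (s : F ⊆ E ∪ D) : T F X ⊆ T E X + T D X := by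
  have m : ∀ {F E : Finset G}, F ⊆ E → T F X ⊆ T E X := fun s => by
    rw [T, T, ← sum_sdiff s]
    exact subset_add_right _ (T0 h _)
  rw [T, ← sum_inter_add_sum_sdiff F E]
  exact add_subset_add (m inter_subset_right) (m (by grind))

theorem lad {X Y Z : Finset A} (z : 0 ∈ Z) (h : Z ⊆ X + Y) : log Z.card ≤ log X.card + log Y.card := by
  obtain ⟨x, y⟩ := add_nonempty.1 ⟨0, h z⟩
  rw [← log_mul (by simpa using x.ne_empty) (by simpa using y.ne_empty)]
  exact log_le_log (by exact_mod_cast card_pos.2 ⟨0, z⟩) (by exact_mod_cast (card_le_card h).trans card_add_le)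

theorem lbi {X : Finset A} (h : 0 ∈ X) {ι : Type} (C : Finset ι) (B : ι → Finset G) :
    log (T (C.biUnion B) X).card ≤ ∑ c ∈ C, log (T (B c) X).card := by
  induction C using Finset.induction_on with
  | empty => simp [T]
  | insert c C hc i =>
    rw [sum_insert hc, biUnion_insert]
    linarith [lad (T0 h _) (Tun h (Subset.refl (B c ∪ C.biUnion B)))]

theorem lcard {X : Finset A} (h : 0 ∈ X) (F : Finset G) : log (T F X).card ≤ F.card * log X.card := by
  simpa [T] using lbi h F fun g => {g}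

theorem Tsm (X : Finset A) (g : G) (F : Finset G) : T (g • F) X = g • T F X := by
  rw [T, T, smul_finset_def, sum_image (MulAction.injective g).injOn, smul_sum]
  simp [mul_smul]

theorem Tmul {X : Finset A} (h : 0 ∈ X) (E S : Finset G) : T (E * S) X ⊆ T E (T S X) := by
  induction E using Finset.induction_on with
  | empty => simp [T]
  | insert g E hg i =>
    rw [T, T, sum_insert hg, ← Tsm]
    exact (Tun h (by rw [insert_eq, union_mul, singleton_mul])).trans (add_subset_add_left i)

theorem tb (g : G) : Tendsto (fun F : Finset G => bd F g / F.card) (Fol G) (𝓝 0) :=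
  tendsto_iff_comap.2 (inf_le_right.trans (iInf_le _ g))

theorem unif {Y : Finset A} (y : 0 ∈ Y) {h : ℝ} (h0 : 0 ≤ h)
    (e : ∀ᶠ F : Finset G in Fol G, log (T F Y).card / F.card ≤ h) : ∃ (U : Finset G) (M : ℝ),
      ∀ F : Finset G, log (T F Y).card ≤ h * F.card + M * ∑ u ∈ U, bd F u := by
  have b0 : ∀ (F : Finset G) u, 0 ≤ bd F u := fun _ _ => Nat.cast_nonneg _
  obtain ⟨δ, d, U, k⟩ : ∃ δ > 0, ∃ U : Finset G, ∀ F : Finset G, (∀ u ∈ U, bd F u / F.card < δ) →
      F ∈ {F : Finset G | F.Nonempty → log (T F Y).card / F.card ≤ h} := by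
    rw [Fol, inf_comm, eventually_inf_principal] at e
    refine iInf_sets_induct e (p := fun s => ∃ δ > 0, ∃ U : Finset G, ∀ F : Finset G,
      (∀ u ∈ U, bd F u / F.card < δ) → F ∈ s) ⟨1, one_pos, ∅, by simp⟩ ?_
    rintro u s t ⟨W, w1, w2⟩ ⟨δ, d, U, k⟩
    obtain ⟨r, r0, hr⟩ := Metric.mem_nhds_iff.1 w1
    refine ⟨min δ r, lt_min d r0, insert u U, fun F f => ⟨w2 (hr ?_), k F fun v hv =>
      (f v (mem_insert_of_mem hv)).trans_le (min_le_left _ _)⟩⟩
    rw [mem_ball_zero_iff, norm_of_nonneg (div_nonneg (b0 _ _) (Nat.cast_nonneg _))]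
    exact (f u (mem_insert_self _ _)).trans_le (min_le_right _ _)
  have l := log_natCast_nonneg Y.card
  refine ⟨U, log Y.card / δ, fun F => ?_⟩
  have s := sum_nonneg fun u (_ : u ∈ U) => b0 F u
  rcases F.eq_empty_or_nonempty with rfl | f
  · simpa [T] using mul_nonneg (by positivity) s
  have c : (0 : ℝ) < F.card := by exact_mod_cast f.card_pos
  by_cases q : ∀ u ∈ U, bd F u / F.card < δ
  · exact ((div_le_iff₀ c).1 (k F q f)).trans (le_add_of_nonneg_right (by positivity))
  push Not at q
  obtain ⟨u, a, b⟩ := q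
  have := mul_le_mul_of_nonneg_left (((le_div_iff₀ c).1 b).trans (single_le_sum (fun u _ => b0 F u) a))
    (show 0 ≤ log Y.card / δ by positivity)
  rw [← mul_assoc, div_mul_cancel₀ _ d.ne'] at this
  nlinarith [lcard y F]

theorem coset (H : Subgroup G) (Y : Finset A) (h M : ℝ) (U : Finset H)
    (k : ∀ F : Finset H, log (T F Y).card ≤ h * F.card + M * ∑ u ∈ U, bd F u) (F : Finset G) :
    ∑ c ∈ F.image (QuotientGroup.mk : G → G ⧸ H), log (T (F.filter fun x : G => (x : G ⧸ H) = c) Y).card ≤
      h * F.card + M * ∑ u ∈ U, bd F u := by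
  have f : ∀ (D : Finset G), D.image (QuotientGroup.mk : G → G ⧸ H) ⊆ F.image QuotientGroup.mk →
      (D.card : ℝ) = ∑ c ∈ F.image (QuotientGroup.mk : G → G ⧸ H),
        ((D.filter fun x : G => (x : G ⧸ H) = c).card : ℝ) := fun D d => by
    exact_mod_cast card_eq_sum_card_fiberwise fun x hx => d (mem_image_of_mem _ hx)
  have g : ∀ u : H, bd F u = ∑ c ∈ F.image (QuotientGroup.mk : G → G ⧸ H),
      bd (F.filter fun x : G => (x : G ⧸ H) = c) u := fun u => by
    refine (f _ fun c hc => ?_).trans (sum_congr rfl fun c _ => congrArg _ (congrArg _ ?_))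
    · simp only [mem_image, mem_symmDiff] at hc ⊢
      obtain ⟨_, ⟨⟨x, a, rfl⟩, -⟩ | ⟨a, -⟩, rfl⟩ := hc
      exacts [⟨x, a, by simp⟩, ⟨_, a, rfl⟩]
    ext x
    obtain ⟨x, rfl⟩ := (mul_right_surjective (u : G)) x
    simp [mem_symmDiff]
    grind
  simp_rw [g]
  rw [f F Subset.rfl, sum_comm, mul_sum, mul_sum, ← sum_add_distrib]
  refine sum_le_sum fun c _ => ?_
  obtain ⟨E, e⟩ : ∃ E : Finset H, (F.filter fun x : G => (x : G ⧸ H) = c) = c.out • E.image (↑) := by
    refine ⟨(c.out⁻¹ • F).subtype _, ?_⟩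
    ext x
    simp [← inv_smul_mem_iff, ← QuotientGroup.eq, eq_comm, and_comm]
  have i := Subtype.val_injective (p := (· ∈ H))
  rw [e, Tsm, card_smul_finset, card_smul_finset, card_image_of_injective _ i, T, sum_image i.injOn]
  refine (k E).trans_eq ?_
  congr 2
  refine sum_congr rfl fun u _ => ?_
  rw [bd, bd, ← card_image_of_injective _ i, ← card_smul_finset c.out,
    @image_symmDiff _ _ (fun a b => Classical.propDecidable (a = b)) _ _ _ _ i, smul_finset_symmDiff]
  simp [smul_finset_def, image_image, Function.comp_def, mul_assoc, -image_mul_right]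

theorem core (H : Subgroup G) {X : Finset A} (x0 : 0 ∈ X) (S : Finset G)
    (hS : Set.InjOn (fun s => ((s⁻¹ : G) : G ⧸ H)) S) {p : ℝ} (p0 : 0 ≤ p) (p1 : p ≤ 1) {h : ℝ} (h0 : 0 ≤ h)
    (e : Hx H (T S X) < .ofReal h) : Hx G X ≤ .ofReal (p * h + log X.card * (1 - p) ^ S.card) := by
  obtain ⟨U, M, k⟩ := unif (G := H) (T0 x0 S) h0 ((eventually_lt_of_limsup_lt e).mono fun F f =>
    ((ENNReal.ofReal_lt_ofReal_iff_of_nonneg (div_nonneg (log_natCast_nonneg _) (Nat.cast_nonneg _))).1 f).le)
  have l := log_natCast_nonneg X.card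
  have t : Tendsto (fun F : Finset G => p * h + log X.card * (1 - p) ^ S.card +
      (p * M * ∑ u ∈ U, bd F u / F.card + log X.card * ∑ s ∈ S, bd F s / F.card)) (Fol G) (𝓝 _) :=
    tendsto_const_nhds.add (((tendsto_finsetSum _ fun u _ => tb _).const_mul _).add
      ((tendsto_finsetSum _ fun u _ => tb _).const_mul _))
  simp only [sum_const_zero, mul_zero, add_zero] at t
  refine le_of_forall_gt_imp_ge_of_dense fun c hc => limsup_le_of_le (h := ?_)
  filter_upwards [(ENNReal.tendsto_ofReal t).eventually (gt_mem_nhds hc),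
    le_principal_iff.1 (inf_le_left : Fol G ≤ _)] with F f n
  refine (ENNReal.ofReal_le_ofReal ?_).trans f.le
  have c0 : (0 : ℝ) < F.card := by exact_mod_cast Finset.Nonempty.card_pos n
  let B := fun c : G ⧸ H => F.filter fun x : G => (x : G ⧸ H) = c
  let D := fun x : G => S.image fun s => ((x * s⁻¹ : G) : G ⧸ H)
  let J := F.filter fun x => ∀ s ∈ S, x * s⁻¹ ∈ F
  obtain ⟨C, -, c2⟩ := Lib.helper9.derand (F.image (QuotientGroup.mk : G → G ⧸ H))
    (fun c => log (T (B c) (T S X)).card) (fun _ => log X.card) D p0 p1 J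
  have a1 := coset H _ h M U k F
  have a2 : ∑ x ∈ J, log X.card * (1 - p) ^ (D x ∩ F.image (QuotientGroup.mk : G → G ⧸ H)).card ≤
      F.card * (log X.card * (1 - p) ^ S.card) := by
    rw [sum_congr rfl (g := fun _ => log X.card * (1 - p) ^ S.card) fun x hx => ?_, sum_const, nsmul_eq_mul]
    · exact mul_le_mul_of_nonneg_right (by exact_mod_cast card_filter_le _ _) (by
        have := sub_nonneg.2 p1; positivity)
    rw [inter_eq_left.2 (image_subset_iff.2 fun s hs => mem_image_of_mem _ ((mem_filter.1 hx).2 s hs)),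
      card_image_of_injOn fun s a t b e => hS a b ?_]
    simpa [QuotientGroup.eq] using e
  have a3 : F ⊆ (C.biUnion fun c => B c * S) ∪ (J.filter (fun x => Disjoint (D x) C) ∪
      S.biUnion fun s => F.image (· * s) ∆ F) := fun x hx => by
    by_contra n
    simp only [mem_union, mem_biUnion, not_or, not_exists, not_and, mem_filter, mem_symmDiff] at n
    have j : ∀ s ∈ S, x * s⁻¹ ∈ F := fun s hs => by
      obtain ⟨y, a, rfl⟩ := mem_image.1 (not_not.1 ((n.2.2 s hs).2 hx))
      simpa
    obtain ⟨c, a, b⟩ := not_disjoint_iff.1 (n.2.1 (mem_filter.2 ⟨hx, j⟩))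
    obtain ⟨s, hs, rfl⟩ := mem_image.1 a
    exact n.1 _ b (mem_mul.2 ⟨_, mem_filter.2 ⟨j s hs, rfl⟩, s, hs, by simp⟩)
  have a4 := lad (T0 x0 _) (Tun x0 a3)
  have a5 := (lbi x0 C _).trans (sum_le_sum fun c _ => log_le_log (Nat.cast_pos.2 (card_pos.2 ⟨0, T0 x0 _⟩))
    (Nat.cast_le.2 (card_le_card (Tmul x0 (B c) S))))
  have a6 := (lcard x0 _).trans (mul_le_mul_of_nonneg_right (Nat.cast_le.2 ((card_union_le
    (J.filter fun x => Disjoint (D x) C) (S.biUnion fun s => F.image (· * s) ∆ F)).trans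
      (add_le_add_right card_biUnion_le _))) l)
  simp only [sum_const, nsmul_eq_mul, Nat.cast_add, Nat.cast_sum] at c2 a6
  simp only [← sum_div]
  rw [div_le_iff₀ c0]
  field_simp
  have := mul_le_mul_of_nonneg_left a1 p0
  simp only [bd] at *
  nlinarith

theorem Hm (G : Type) [Group G] [DistribMulAction G A] (X : Finset A) : Hx G X ≤ Hx G (insert 0 X) := by
  refine limsup_le_limsup (.of_forall fun F => ENNReal.ofReal_le_ofReal (div_le_div_of_nonneg_right ?_
    (Nat.cast_nonneg _)))
  rcases Nat.eq_zero_or_pos (T F X).card with h | h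
  · simpa [h] using log_natCast_nonneg _
  exact log_le_log (by exact_mod_cast h) (Nat.cast_le.2 (card_le_card (sum_le_sum (f := fun g : G => g • X)
    fun _ _ => smul_finset_subset_smul_finset (subset_insert _ _))))

theorem Hle (H : Subgroup G) {X : Finset A} (x0 : 0 ∈ X) : Hx G X ≤ Hx H X :=
  le_of_forall_gt_imp_ge_of_dense fun c hc => by
    rcases eq_or_ne c ⊤ with rfl | n
    · exact le_top
    simpa [n] using core H x0 {1} (by simp) zero_le_one le_rfl (h := c.toReal) ENNReal.toReal_nonneg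
      (by simpa [T, n])

end Pool.Agent.H.MP_df8e9b_al
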